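import Mathlib
import Pool.Agent.H26.ChromRel

set_option autoImplicit false

namespace Pool.Agent.Results.MP_fbe9f6_co.BipartiteRelatedK2

/-- Every finite bipartite graph `G` with at least two vertices is chromatically related to `K_2`:
for every `l ≥ 2` some finite graph `H` has chromatic number `l` and `G`-free chromatic number `l`
(the least number of colours such that no induced copy of `G` in `H` is monochromatic). -/
theorem result {α : Type} [Fintype α] [Nontrivial α] (G : SimpleGraph α) (hG : G.Colorable 2)
    (l : ℕ) (hl : 2 ≤ l) :
    ∃ (β : Type) (_ : Fintype β) (H : SimpleGraph β), H.chromaticNumber = l ∧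
      IsLeast {k : ℕ | ∃ c : β → Fin k, ∀ f : G ↪g H, ¬ ∀ x y, c (f x) = c (f y)} l :=
  Pool.Agent.H26.ChromRel.main G hG l hl

end Pool.Agent.Results.MP_fbe9f6_co.BipartiteRelatedK2
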